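import Pool.Agent.H2.SumPow.Orbit

/-!
Explicit bound for `k(N)` when `N = q M + 1` with `M` odd, `M ≥ 2 q + 3`:
`2 k(N) ≤ q M + 2 M + 3 q + 4`; for `M = 2 q + 3` this is `k(N) ≤ N / 2 + O(√N)`.
-/

namespace Pool.Agent.Results.MP_7b808b_an.ExplicitFamily

/-- Every entire function is a sum of `k` `N`-th powers of entire functions. -/
def EverySum (N k : ℕ) : Prop :=
  ∀ f : ℂ → ℂ, Differentiable ℂ f →
    ∃ g : Fin k → ℂ → ℂ, (∀ i, Differentiable ℂ (g i)) ∧ ∀ z, f z = ∑ i, g i z ^ N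

theorem result (q M : ℕ) (hq : 1 ≤ q) (hodd : Odd M) (hM : 2 * q + 3 ≤ M) :
    ∃ k : ℕ, IsLeast {k : ℕ | 0 < k ∧ EverySum (q * M + 1) k} k ∧
      2 * k ≤ q * M + 2 * M + 3 * q + 4 := by
  obtain ⟨D, hD⟩ := hodd
  have hDq : q + 1 ≤ D := by omega
  have key := Pool.Agent.H2.SumPow.orbit_bound (q * M + 1) M D 1 1 (q - 1) q le_rfl
    (by omega) (by rw [Nat.sub_add_cancel hq]; ring) (by omega)
    (by rw [mul_comm]) (by
      rw [Nat.sub_add_cancel hq]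
      exact Nat.le_mul_of_pos_left _ (by omega))
  rw [Nat.sub_add_cancel hq] at key
  set k := M + (q * M + 1 - (D * q - q) + 1) with hk
  have hmem : k ∈ {k : ℕ | 0 < k ∧ EverySum (q * M + 1) k} :=
    ⟨by omega, fun f hf => key.comp hf⟩
  refine ⟨sInf {k : ℕ | 0 < k ∧ EverySum (q * M + 1) k},
    ⟨Nat.sInf_mem ⟨k, hmem⟩, fun _ h => Nat.sInf_le h⟩, ?_⟩
  have h1 : sInf {k : ℕ | 0 < k ∧ EverySum (q * M + 1) k} ≤ k := Nat.sInf_le hmem
  have h2 : q ≤ D * q := Nat.le_mul_of_pos_left _ (by omega)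
  have h3 : q * M = 2 * (D * q) + q := by rw [hD]; ring
  have h4 : 2 * k ≤ q * M + 2 * M + 3 * q + 4 := by omega
  omega

end Pool.Agent.Results.MP_7b808b_an.ExplicitFamily
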