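import Pool.Agent.H2.SumPow.Asymptotic

/-!
`limsup k(N) / N ≤ 1/2`, where `k(N)` is the least positive `k` such that every entire function is
a sum of `k` `N`-th powers of entire functions.
-/

namespace Pool.Agent.Results.MP_7b808b_an.HalfAsymptotic

/-- Every entire function is a sum of `k` `N`-th powers of entire functions. -/
def EverySum (N k : ℕ) : Prop :=
  ∀ f : ℂ → ℂ, Differentiable ℂ f →
    ∃ g : Fin k → ℂ → ℂ, (∀ i, Differentiable ℂ (g i)) ∧ ∀ z, f z = ∑ i, g i z ^ N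

theorem result (ε : ℝ) (hε : 0 < ε) :
    ∃ N₀ : ℕ, ∀ N : ℕ, N₀ ≤ N →
      ∃ k : ℕ, IsLeast {k : ℕ | 0 < k ∧ EverySum N k} k ∧ (k : ℝ) ≤ (1 / 2 + ε) * N := by
  obtain ⟨N₀, hN₀⟩ := Pool.Agent.H2.SumPow.asymptotic ε hε
  refine ⟨N₀, fun N hN => ?_⟩
  obtain ⟨k, hk0, hk, hkN⟩ := hN₀ N hN
  have hmem : k ∈ {k : ℕ | 0 < k ∧ EverySum N k} := ⟨hk0, fun f hf => hk.comp hf⟩
  refine ⟨sInf {k : ℕ | 0 < k ∧ EverySum N k}, ⟨Nat.sInf_mem ⟨k, hmem⟩, fun _ h => Nat.sInf_le h⟩,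
    ?_⟩
  have h1 : sInf {k : ℕ | 0 < k ∧ EverySum N k} ≤ k := Nat.sInf_le hmem
  have h2 : ((sInf {k : ℕ | 0 < k ∧ EverySum N k} : ℕ) : ℝ) ≤ k := by exact_mod_cast h1
  exact h2.trans hkN

end Pool.Agent.Results.MP_7b808b_an.HalfAsymptotic
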