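import Pool.Agent.H15.KN.All

/-!
`k(N) < N` for every `N ≥ 5`, and `3 k(N) ≤ 2 N + 4` for `5 ≤ N ≤ 15`, where `k(N)` is the least
positive `k` such that every entire function is a sum of `k` `N`-th powers of entire functions;
`z` itself is a sum of that many `N`-th powers of polynomials of degree at most two.
-/

set_option autoImplicit false

namespace Pool.Agent.Results.MP_7b808b_an.LessThanN

/-- Every entire function is a sum of `k` `N`-th powers of entire functions. -/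
def EverySum (N k : ℕ) : Prop :=
  ∀ f : ℂ → ℂ, Differentiable ℂ f →
    ∃ g : Fin k → ℂ → ℂ, (∀ i, Differentiable ℂ (g i)) ∧ ∀ z, f z = ∑ i, g i z ^ N

theorem result (N : ℕ) (hN : 5 ≤ N) :
    ∃ m : ℕ, m < N ∧ (N ≤ 15 → 3 * m ≤ 2 * N + 4) ∧
      (∃ k : ℕ, IsLeast {k : ℕ | 0 < k ∧ EverySum N k} k ∧ k ≤ m) ∧
      ∃ p : Fin m → Polynomial ℂ, (∀ i, (p i).natDegree ≤ 2) ∧ ∑ i, p i ^ N = Polynomial.X := by
  obtain ⟨m, hm0, hmN, hm, p, hp, hs⟩ := Pool.Agent.H15.KN.rep_all hN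
  have hmem : m ∈ {k : ℕ | 0 < k ∧ EverySum N k} := by
    refine ⟨hm0, fun f hf => ⟨fun i z => (p i).eval (f z), fun i => ?_, fun z => ?_⟩⟩
    · exact (p i).differentiable.comp hf
    · have h := congrArg (fun q : Polynomial ℂ => q.eval (f z)) hs
      simp only [Polynomial.eval_finsetSum, Polynomial.eval_pow, Polynomial.eval_X] at h
      exact h.symm
  exact ⟨m, hmN, hm, ⟨sInf {k : ℕ | 0 < k ∧ EverySum N k},
    ⟨Nat.sInf_mem ⟨_, hmem⟩, fun _ h => Nat.sInf_le h⟩, Nat.sInf_le hmem⟩, p, hp, hs⟩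

end Pool.Agent.Results.MP_7b808b_an.LessThanN
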