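import Pool.Agent.H86.Waring.Final

/-!
`k(N) ≤ 2 ⌊N/3⌋ + 5` for every `N ≥ 1`, where `k(N)` is the least positive `k` such that every
entire function is a sum of `k` `N`-th powers of entire functions; `z` itself is a sum of
`2 ⌊N/3⌋ + 5` `N`-th powers of polynomials of degree at most two.
-/

namespace Pool.Agent.Results.MP_7b808b_an.TwoThirds

/-- Every entire function is a sum of `k` `N`-th powers of entire functions. -/
def EverySum (N k : ℕ) : Prop :=
  ∀ f : ℂ → ℂ, Differentiable ℂ f →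
    ∃ g : Fin k → ℂ → ℂ, (∀ i, Differentiable ℂ (g i)) ∧ ∀ z, f z = ∑ i, g i z ^ N

theorem result (N : ℕ) (hN : 1 ≤ N) :
    (∃ k : ℕ, IsLeast {k : ℕ | 0 < k ∧ EverySum N k} k ∧ k ≤ 2 * (N / 3) + 5) ∧
    ∃ p : Fin (2 * (N / 3) + 5) → Polynomial ℂ,
      (∀ i, (p i).natDegree ≤ 2) ∧ ∑ i, p i ^ N = Polynomial.X := by
  obtain ⟨p, hp, hs⟩ := Pool.Agent.H86.Waring.quadratics_all N hN
  have hmem : 2 * (N / 3) + 5 ∈ {k : ℕ | 0 < k ∧ EverySum N k} := by
    refine ⟨by omega, fun f hf => ⟨fun i z => (p i).eval (f z), fun i => ?_, fun z => ?_⟩⟩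
    · exact (p i).differentiable.comp hf
    · have h := congrArg (fun q : Polynomial ℂ => q.eval (f z)) hs
      simp only [Polynomial.eval_finsetSum, Polynomial.eval_pow, Polynomial.eval_X] at h
      exact h.symm
  exact ⟨⟨sInf {k : ℕ | 0 < k ∧ EverySum N k}, ⟨Nat.sInf_mem ⟨_, hmem⟩, fun _ h => Nat.sInf_le h⟩,
    Nat.sInf_le hmem⟩, p, hp, hs⟩

end Pool.Agent.Results.MP_7b808b_an.TwoThirds
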